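import Pool.Agent.H.MP_3f33d0_an.B

set_option autoImplicit false
open scoped ComplexOrder
open Pool.Agent.H.MP_3f33d0_an

namespace Pool.Agent.Results.MP_3f33d0_an.No

/-- regular operators: complex linear combinations of positive operators -/
def Reg {V : Type} [AddCommGroup V] [Module ℂ V] (ι : V →ₗ[ℂ] (ℤ → ℂ)) (T : V →ₗ[ℂ] V) : Prop :=
  T ∈ Submodule.span ℂ {S : V →ₗ[ℂ] V | ∀ f, 0 ≤ ι f → 0 ≤ ι (S f)}

theorem result : ∃ (V : Type) (_ : NormedAddCommGroup V) (_ : NormedSpace ℂ V)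
    (_ : CompleteSpace V) (ι : V →ₗ[ℂ] (ℤ → ℂ)), Function.Injective ι ∧
    (∀ (f : V) (g : ℤ → ℂ), (∀ s, ‖g s‖ ≤ ‖ι f s‖) → ∃ f' : V, ι f' = g ∧ ‖f'‖ ≤ ‖f‖) ∧
    (∀ (t : ℤ) (f : V), ∃ g : V, ι g = fun s => ι f (s + t)) ∧
    (∃ T : V →L[ℂ] V, ¬ Reg ι (T : V →ₗ[ℂ] V)) ∧
    ∀ T : V →L[ℂ] V,
      (∀ (t : ℤ) (f g : V), (ι g = fun s => ι f (s + t)) → ι (T g) = fun s => ι (T f) (s + t)) →
      Reg ι (T : V →ₗ[ℂ] V) := by
  have := E_complete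
  refine ⟨E, inferInstance, inferInstance, this, LinearMap.pi fun s => (ev s : E →ₗ[ℂ] ℂ),
    fun f g h => ev_ext (congrFun h), fun f g h => ?_, fun t f => ⟨ρ t f, funext fun s => ev_ρ t s f⟩,
    ok.nonreg, fun T hT => ok.reg fun t f => ev_ext fun s => ?_⟩
  · obtain ⟨f', h1, h2⟩ := solid f g h
    exact ⟨f', funext h1, h2⟩
  · rw [ev_ρ]
    exact congrFun (hT t f (ρ t f) (funext fun s => ev_ρ t s f)) s

end Pool.Agent.Results.MP_3f33d0_an.No
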